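import Pool.Agent.Helper54.PT.Defs

/-!
# Module A1: basic properties of the norm symbol
-/

set_option autoImplicit false

namespace Pool.Agent.Helper54.PT

open Polynomial Finset Filter Topology

section

variable {F : Type} [Field F]

/-- A1 (a)-(i) : basic properties of the norm symbol -/
theorem nm_mul (Q f g : F[X]) : nm Q (f * g) = nm Q f * nm Q g := by
  rw [nm, nm, nm, map_mul, map_mul]

theorem nm_congr {Q f g : F[X]} (h : Q ∣ f - g) : nm Q f = nm Q g := by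
  rw [nm, nm, AdjoinRoot.mk_eq_mk.2 h]

theorem nm_ne_zero {Q f : F[X]} (hQ : Q.Monic) (hQi : Irreducible Q) (h : ¬ Q ∣ f) :
    nm Q f ≠ 0 := by
  have : Fact (Irreducible Q) := ⟨hQi⟩
  have : FiniteDimensional F (AdjoinRoot Q) := (AdjoinRoot.powerBasis hQ.ne_zero).finite
  rw [nm, Algebra.norm_ne_zero_iff]
  exact fun h2 => h (AdjoinRoot.mk_eq_zero.1 h2)

theorem nm_C {Q : F[X]} (hQ : Q.Monic) (c : F) : nm Q (C c) = c ^ Q.natDegree := by
  rw [nm]
  have h : AdjoinRoot.mk Q (C c) = algebraMap F (AdjoinRoot Q) c := rfl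
  rw [h, Algebra.norm_algebraMap_of_basis (AdjoinRoot.powerBasis hQ.ne_zero).basis]
  rw [Fintype.card_fin, AdjoinRoot.powerBasis_dim]

theorem sy_mul {ℓ : ℕ} {lg : F → ZMod ℓ} (hlg : IsLog ℓ lg) {Q f g : F[X]} (hQ : Q.Monic)
    (hQi : Irreducible Q) (hf : ¬ Q ∣ f) (hg : ¬ Q ∣ g) :
    sy lg Q (f * g) = sy lg Q f + sy lg Q g := by
  rw [sy, sy, sy, nm_mul, hlg.1 _ _ (nm_ne_zero hQ hQi hf) (nm_ne_zero hQ hQi hg)]

theorem sy_congr {ℓ : ℕ} {lg : F → ZMod ℓ} {Q f g : F[X]} (h : Q ∣ f - g) :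
    sy lg Q f = sy lg Q g := by
  rw [sy, sy, nm_congr h]

theorem sy_C {ℓ : ℕ} {lg : F → ZMod ℓ} (hlg : IsLog ℓ lg) {Q : F[X]} (hQ : Q.Monic) {c : F}
    (hc : c ≠ 0) : sy lg Q (C c) = Q.natDegree * lg c := by
  have h1 : lg 1 = 0 := by
    have h := hlg.1 1 1 one_ne_zero one_ne_zero
    rw [mul_one] at h
    exact (add_eq_left.1 h.symm)
  have hp : ∀ n : ℕ, lg (c ^ n) = n * lg c := by
    intro n
    induction n with
    | zero => rw [pow_zero, h1, Nat.cast_zero, zero_mul]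
    | succ n ih =>
      rw [pow_succ, hlg.1 _ _ (pow_ne_zero n hc) hc, ih, Nat.cast_succ]
      ring
  rw [sy, nm_C hQ, hp]

theorem sy_one {ℓ : ℕ} {lg : F → ZMod ℓ} (hlg : IsLog ℓ lg) {Q : F[X]} (hQ : Q.Monic) :
    sy lg Q 1 = 0 := by
  have h1 : lg 1 = 0 := by
    have h := hlg.1 1 1 one_ne_zero one_ne_zero
    rw [mul_one] at h
    exact (add_eq_left.1 h.symm)
  have h := sy_C hlg hQ (c := 1) one_ne_zero
  rw [map_one, h1, mul_zero] at h
  exact h

theorem sy_pow {ℓ : ℕ} {lg : F → ZMod ℓ} (hlg : IsLog ℓ lg) {Q f : F[X]} (hQ : Q.Monic)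
    (hQi : Irreducible Q) (hf : ¬ Q ∣ f) (n : ℕ) : sy lg Q (f ^ n) = n * sy lg Q f := by
  induction n with
  | zero => rw [pow_zero, sy_one hlg hQ, Nat.cast_zero, zero_mul]
  | succ n ih =>
    rw [pow_succ, sy_mul hlg hQ hQi (fun h => hf (hQi.prime.dvd_of_dvd_pow h)) hf, ih,
      Nat.cast_succ]
    ring

theorem sy_prod {ℓ : ℕ} {lg : F → ZMod ℓ} (hlg : IsLog ℓ lg) {Q : F[X]} (hQ : Q.Monic)
    (hQi : Irreducible Q) {α : Type} (s : Finset α) (f : α → F[X]) (hf : ∀ i ∈ s, ¬ Q ∣ f i) :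
    sy lg Q (∏ i ∈ s, f i) = ∑ i ∈ s, sy lg Q (f i) := by
  classical
  induction s using Finset.induction_on with
  | empty => rw [prod_empty, sum_empty, sy_one hlg hQ]
  | insert a s ha ih =>
    rw [prod_insert ha, sum_insert ha, sy_mul hlg hQ hQi (hf a (mem_insert_self a s)),
      ih fun i hi => hf i (mem_insert_of_mem hi)]
    intro h
    obtain ⟨i, hi, h2⟩ := (Prime.dvd_finsetProd_iff hQi.prime f).1 h
    exact hf i (mem_insert_of_mem hi) h2

end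

end Pool.Agent.Helper54.PT
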