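import Pool.Agent.Helper13.TW.StB

set_option autoImplicit false

namespace Pool.Agent.Helper45.TW

open Set Topology Pool.Agent.Helper13.TR Pool.Agent.Helper13.TW

/-- if `H_1(S, S ∖ D) = 0` then `D` does not separate -/
private lemma arn_join (hJOI : StJOI) (hSDA : StSDA) {X : Type} [TopologicalSpace X]
    {D : Set X} (hP : PP D 1) {x y : X} (hx : x ∉ D) (hy : y ∉ D) (hj : Joined x y) :
    JoinedIn Dᶜ x y := by
  obtain ⟨j1, -, -, -, -⟩ := hJOI X univ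
  obtain ⟨-, j2, j3, -, j5⟩ := hJOI X Dᶜ
  obtain ⟨r, -, hr⟩ := j1 x y (joinedIn_univ.2 hj)
  have hcyc : r ∈ Cyc D 1 := by
    show bd 0 r ∈ cin Dᶜ 0
    rw [hr]
    exact Submodule.sub_mem _ (j5 y hy) (j5 x hx)
  have hnul := hP hcyc
  obtain ⟨ρ, hρ, u, ⟨β, rfl⟩, hsum⟩ := Submodule.mem_sup.1 hnul
  have hbd : bd 0 ρ = Finsupp.single (pt y) 1 - Finsupp.single (pt x) 1 := by
    have h1 : bd 0 (ρ + bd 1 β) = bd 0 ρ := by
      rw [map_add, (hSDA X).1 0 β, add_zero]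
    rw [← h1, hsum, hr]
  have h0 : ev {z | JoinedIn Dᶜ x z} (bd 0 ρ) = 0 := by
    refine j2 {z | JoinedIn Dᶜ x z} (fun a b hab => ?_) ρ hρ
    exact ⟨fun h => JoinedIn.trans h hab, fun h => JoinedIn.trans h hab.symm⟩
  rw [hbd, map_sub] at h0
  have hxT : x ∈ {z | JoinedIn Dᶜ x z} := JoinedIn.refl hx
  rw [(j3 _ x).1 hxT] at h0
  by_contra hyT
  have hyT' : y ∉ {z | JoinedIn Dᶜ x z} := hyT
  rw [(j3 _ y).2 hyT'] at h0
  norm_num at h0

/-- joined in the complement of a preimage -/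
private lemma arn_map {X : Type} [TopologicalSpace X] {U F : Set X} {x y : ↥U}
    (h : JoinedIn (Subtype.val ⁻¹' F : Set ↥U) x y) : JoinedIn F (x : X) (y : X) := by
  obtain ⟨γ, hγ⟩ := h
  exact ⟨γ.map continuous_subtype_val, fun t => hγ t⟩

theorem hARN (hRAY2 : StRAY2) (hJOI : StJOI) (_hMON : StMON) (hSDA : StSDA) (hARB : StARB)
    (hSCL : StSCL) (hLIN : StLIN) (hOPN2 : StOPN2) (hLCO : StLCO) : StARN := by
  intro S _ _ _ _ ω hω hnc
  have h1 : ∀ D : Set S, ((∃ p q, IsArc D p q) ∨ ∃ p, D = {p}) → IsPathConnected Dᶜ := by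
    intro D hD
    have hcp : IsCompact D := by
      rcases hD with ⟨p, q, h⟩ | ⟨p, rfl⟩
      · exact (hARB.1 S D p q h).2.1
      · exact isCompact_singleton
    have hP : PP D 1 := by
      rcases hD with ⟨p, q, h⟩ | ⟨p, rfl⟩
      · obtain ⟨f, hf⟩ := hLIN.2.2.2 S D p q h
        refine hRAY2 S ω hω D f hcp.isClosed hf (fun a b => ?_) ?_
        · exact hcp.inter_right (isClosed_Icc.preimage f.continuous)
        · obtain ⟨m, hm⟩ := (hcp.image f.continuous).bddBelow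
          exact ⟨m, fun w hw => hm ⟨w, hw, rfl⟩⟩
      · exact hω.low p
    have hne : (Dᶜ).Nonempty := by
      rw [nonempty_compl]
      rintro rfl
      exact hnc ⟨hcp⟩
    obtain ⟨x, hx⟩ := hne
    exact ⟨x, hx, fun y hy => arn_join hJOI hSDA hP hx hy (PathConnectedSpace.joined x y)⟩
  refine ⟨h1, ?_⟩
  intro J hJ a b c ha hb hc
  obtain ⟨-, -, -, -, -, hJp, -⟩ := hSCL S J hJ
  obtain ⟨p, hp⟩ := hJp.nonempty
  have hpc : IsPathConnected ({p}ᶜ : Set S) := h1 {p} (Or.inr ⟨p, rfl⟩)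
  have hop : IsOpen ({p}ᶜ : Set S) := isOpen_compl_singleton
  have : PathConnectedSpace ↥({p}ᶜ : Set S) := isPathConnected_iff_pathConnectedSpace.1 hpc
  have : LocallyPathConnectedSpace ↥({p}ᶜ : Set S) := hop.locallyPathConnectedSpace
  have hW := hOPN2 S ω ({p}ᶜ : Set S) hω hop
  obtain ⟨ψ, hψ, hrψ⟩ := hLIN.2.1 S J p hJ hp
  have hmem : ∀ z : S, z ∉ J → z ∈ ({p}ᶜ : Set S) := fun z hz h => hz (by
    rw [mem_singleton_iff] at h; rw [h]; exact hp)
  have hkey : ∀ x y : ↥({p}ᶜ : Set S), JoinedIn (range ψ)ᶜ x y → JoinedIn Jᶜ (x : S) (y : S) := by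
    intro x y h
    rw [hrψ] at h
    exact arn_map h
  have hnr : ∀ (z : S) (hz : z ∉ J), (⟨z, hmem z hz⟩ : ↥({p}ᶜ : Set S)) ∉ range ψ := by
    intro z hz
    rw [hrψ]
    exact hz
  by_cases hab : JoinedIn Jᶜ a b
  · exact Or.inl hab
  by_cases hac : JoinedIn Jᶜ a c
  · exact Or.inr (Or.inr hac)
  refine Or.inr (Or.inl ?_)
  have := hLCO ↥({p}ᶜ : Set S) _ hW ψ hψ {z | JoinedIn Jᶜ a (z : S)} ?_
    ⟨⟨a, hmem a ha⟩, ⟨b, hmem b hb⟩, hnr a ha, hnr b hb, JoinedIn.refl ha, hab,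
      PathConnectedSpace.joined _ _⟩
    ⟨b, hmem b hb⟩ ⟨c, hmem c hc⟩ (hnr b hb) (hnr c hc) (PathConnectedSpace.joined _ _)
    (by
      constructor
      · intro h
        exact absurd h hab
      · intro h
        exact absurd h hac)
  · exact hkey _ _ this
  · intro x y hxy
    have h := hkey x y hxy
    exact ⟨fun hx => JoinedIn.trans hx h, fun hy => JoinedIn.trans hy h.symm⟩

end Pool.Agent.Helper45.TW
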