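import Pool.Agent.Helper31.TW.St1

set_option autoImplicit false

/-!
Project TW (MP_434a84_lc), module PKD.
-/

namespace Pool.Agent.Helper45.TW

open Symbol Pool.Agent.Helper31.TW

/-- **PKD** -/
theorem hPKD : StPKD := by
  intro T N R X m U α w hd
  have hpow : 2 ^ (m + 1) = 2 ^ m + 2 ^ m := by rw [pow_succ]; omega
  have hpos : 1 ≤ 2 ^ m := Nat.one_le_two_pow
  have htail : ∀ (s : Symbol T N) (α : List (Symbol T N)), s :: α ∈ Sts R X → α ∈ Sts R X := by
    intro s α h
    simp only [Sts, Set.mem_insert_iff, Set.mem_iUnion, Set.mem_setOf_eq, exists_prop] at h ⊢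
    rcases h with h | h | ⟨r, hr, h⟩
    · right; left
      exact (List.cons.inj h).2
    · exact absurd h (List.cons_ne_nil _ _)
    · right; right
      exact ⟨r, hr, (List.suffix_cons s α).trans h⟩
  have hout : ∀ r ∈ R, r.output ∈ Sts R X := by
    intro r hr
    simp only [Sts, Set.mem_insert_iff, Set.mem_iUnion, Set.mem_setOf_eq, exists_prop]
    right; right
    exact ⟨r, hr, List.suffix_refl _⟩
  have hid : ∀ α : List (Symbol T N), RU R ∅ α [] [] α := by
    intro α V y hy
    simpa using hy
  induction hd with
  | nil => intro _ h; simp at h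
  | @term t U α w hd ih =>
    intro hα hc
    by_cases hle : (t :: w).length ≤ 2 ^ (m + 1)
    · exact ⟨_, hα, ∅, _, [], _, [], by simp, by simp, hid _, DU.term t hd, hc, hle⟩
    · rw [List.length_cons] at hle
      obtain ⟨β, hβ, W, U', u, x, z, h1, h2, h3, h4, h5, h6⟩ := ih (htail _ _ hα) (by omega)
      refine ⟨β, hβ, insert (terminal t :: α) W, U', t :: u, x, z, by rw [h1]; rfl,
        by rw [h2, Set.insert_union], ?_, h4, h5, h6⟩
      intro V y hy
      have h7 := DU.term t (h3 V y hy)
      rw [Set.insert_union]
      exact h7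
  | @nonterm r U V α u w hr hd1 hd2 ih1 ih2 =>
    intro hα hc
    by_cases hle : (u ++ w).length ≤ 2 ^ (m + 1)
    · exact ⟨_, hα, ∅, _, [], _, [], by simp, by simp, hid _, DU.nonterm hr hd1 hd2, hc, hle⟩
    · rw [List.length_append] at hle
      by_cases hu : 2 ^ m ≤ u.length
      · obtain ⟨β, hβ, W, U', u1, x, z, h1, h2, h3, h4, h5, h6⟩ := ih1 (hout _ hr) hu
        refine ⟨β, hβ, insert (nonterminal r.input :: α) (W ∪ V), U', u1, x, z ++ w,
          by rw [h1]; simp [List.append_assoc], ?_, ?_, h4, h5, h6⟩
        · rw [h2]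
          ext s
          simp only [Set.mem_insert_iff, Set.mem_union]
          tauto
        · intro V' y hy
          have h7 := DU.nonterm hr (h3 V' y hy) hd2
          have e1 : insert (nonterminal r.input :: α) (W ∪ V) ∪ V' =
              insert (nonterminal r.input :: α) (W ∪ V' ∪ V) := by
            ext s
            simp only [Set.mem_insert_iff, Set.mem_union]
            tauto
          have e2 : u1 ++ y ++ (z ++ w) = u1 ++ y ++ z ++ w := by simp [List.append_assoc]
          rw [e1, e2]
          exact h7
      · obtain ⟨β, hβ, W, U', u1, x, z, h1, h2, h3, h4, h5, h6⟩ := ih2 (htail _ _ hα) (by omega)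
        refine ⟨β, hβ, insert (nonterminal r.input :: α) (U ∪ W), U', u ++ u1, x, z,
          by rw [h1]; simp [List.append_assoc], ?_, ?_, h4, h5, h6⟩
        · rw [h2]
          ext s
          simp only [Set.mem_insert_iff, Set.mem_union]
          tauto
        · intro V' y hy
          have h7 := DU.nonterm hr hd1 (h3 V' y hy)
          have e1 : insert (nonterminal r.input :: α) (U ∪ W) ∪ V' =
              insert (nonterminal r.input :: α) (U ∪ (W ∪ V')) := by
            ext s
            simp only [Set.mem_insert_iff, Set.mem_union]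
            tauto
          have e2 : u ++ u1 ++ y ++ z = u ++ (u1 ++ y ++ z) := by simp [List.append_assoc]
          rw [e1, e2]
          exact h7

end Pool.Agent.Helper45.TW
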