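import Pool.Agent.Helper45.TW.A1

/-!
# Module A2: the kernel of the symbol, and surjectivity
-/

set_option autoImplicit false

namespace Pool.Agent.Helper54.PT

open Polynomial Finset Filter Topology

/-- An element of norm one of a finite field is an `ℓ`-th power, if `ℓ ∣ q - 1`. -/
private theorem exists_pow_of_norm_one {F κ : Type} [Field F] [Field κ] [Algebra F κ] [Finite κ]
    {ℓ : ℕ} (hq : ℓ ∣ Nat.card F - 1) {u : κ} (hu : Algebra.norm F u = 1) :
    ∃ v : κ, v ^ ℓ = u := by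
  have hfF : Finite F := Finite.of_injective _ (algebraMap F κ).injective
  have hu0 : u ≠ 0 := by
    rintro rfl
    rw [Algebra.norm_zero] at hu
    exact zero_ne_one hu
  have h1 : u ^ ((Nat.card κ - 1) / (Nat.card F - 1)) = 1 := by
    rw [← FiniteField.algebraMap_norm_eq_pow (K := F), hu, map_one]
  obtain ⟨ζ, hζ⟩ := IsCyclic.exists_generator (α := κˣ)
  obtain ⟨k, hk⟩ := Submonoid.mem_powers_iff _ _ |>.1 (mem_powers_iff_mem_zpowers.2
    (hζ (Units.mk0 u hu0)))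
  have hord : orderOf ζ = Nat.card κ - 1 := by
    rw [orderOf_eq_card_of_forall_mem_zpowers hζ, Nat.card_units]
  -- divisibility `q - 1 ∣ Q - 1`
  have hdvd : Nat.card F - 1 ∣ Nat.card κ - 1 := by
    have h2 : Nat.card κ = Nat.card F ^ Module.finrank F κ := Module.natCard_eq_pow_finrank
    rw [h2]
    simpa using Nat.sub_dvd_pow_sub_pow (Nat.card F) 1 (Module.finrank F κ)
  obtain ⟨N, hN⟩ := hdvd
  have hF1 : 0 < Nat.card F - 1 := Nat.sub_pos_of_lt Finite.one_lt_card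
  have hκ1 : 0 < Nat.card κ - 1 := Nat.sub_pos_of_lt Finite.one_lt_card
  have hN0 : 0 < N := by
    rcases Nat.eq_zero_or_pos N with h | h
    · rw [hN, h, mul_zero] at hκ1; exact absurd hκ1 (lt_irrefl 0)
    · exact h
  have h3 : (Nat.card κ - 1) / (Nat.card F - 1) = N := by
    rw [hN, Nat.mul_div_cancel_left N hF1]
  rw [h3] at h1
  have h4 : ζ ^ (k * N) = 1 := by
    rw [pow_mul, hk]
    ext
    rw [Units.val_pow_eq_pow_val, Units.val_mk0, h1, Units.val_one]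
  have h5 : Nat.card F - 1 ∣ k := by
    have h6 := orderOf_dvd_of_pow_eq_one h4
    rw [hord, hN] at h6
    exact Nat.dvd_of_mul_dvd_mul_right hN0 h6
  obtain ⟨j, hj⟩ := dvd_trans hq h5
  refine ⟨((ζ ^ j : κˣ) : κ), ?_⟩
  rw [← Units.val_pow_eq_pow_val, ← pow_mul, mul_comm j ℓ, ← hj, hk, Units.val_mk0]

section

variable {F : Type} [Field F]

/-- A2: the kernel of the symbol, and surjectivity -/
theorem sy_eq_zero_iff [Finite F] {ℓ : ℕ} [Fact ℓ.Prime] (hq : ℓ ∣ Nat.card F - 1)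
    {lg : F → ZMod ℓ} (hlg : IsLog ℓ lg) {Q f : F[X]} (hQ : Q.Monic)
    (hQi : Irreducible Q) (hf : ¬ Q ∣ f) : sy lg Q f = 0 ↔ ∃ g, Q ∣ f - g ^ ℓ := by
  have hfact : Fact (Irreducible Q) := ⟨hQi⟩
  have hfd : FiniteDimensional F (AdjoinRoot Q) := (AdjoinRoot.powerBasis hQ.ne_zero).finite
  have hfin : Finite (AdjoinRoot Q) := Module.finite_of_finite F
  have hℓ : ℓ ≠ 0 := (Fact.out : ℓ.Prime).ne_zero
  have hnz := nm_ne_zero hQ hQi hf
  rw [sy, hlg.2.1 _ hnz]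
  constructor
  · rintro ⟨y, hy⟩
    obtain ⟨z, hz⟩ := FiniteField.norm_surjective F (AdjoinRoot Q) y
    have hy0 : y ≠ 0 := by
      rintro rfl
      rw [zero_pow hℓ] at hy
      exact hnz hy.symm
    have hz0 : z ≠ 0 := by
      rintro rfl
      rw [Algebra.norm_zero] at hz
      exact hy0 hz.symm
    have h1 : Algebra.norm F (AdjoinRoot.mk Q f * (z ^ ℓ)⁻¹) = 1 := by
      have h2 : Algebra.norm F (AdjoinRoot.mk Q f * (z ^ ℓ)⁻¹) * Algebra.norm F (z ^ ℓ) =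
          Algebra.norm F (AdjoinRoot.mk Q f) := by
        rw [← map_mul, mul_assoc, inv_mul_cancel₀ (pow_ne_zero ℓ hz0), mul_one]
      rw [map_pow, hz, hy] at h2
      have h3 : nm Q f = Algebra.norm F (AdjoinRoot.mk Q f) := rfl
      rw [← h3] at h2
      exact (mul_eq_right₀ hnz).1 h2
    obtain ⟨v, hv⟩ := exists_pow_of_norm_one hq h1
    obtain ⟨g, hg⟩ := AdjoinRoot.mk_surjective (g := Q) (v * z)
    refine ⟨g, ?_⟩
    rw [← AdjoinRoot.mk_eq_mk, map_pow, hg, mul_pow, hv, mul_assoc,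
      inv_mul_cancel₀ (pow_ne_zero ℓ hz0), mul_one]
  · rintro ⟨g, hg⟩
    refine ⟨nm Q g, ?_⟩
    rw [nm_congr hg, nm, nm, map_pow, map_pow]

theorem exists_sy_eq [Finite F] {ℓ : ℕ} [Fact ℓ.Prime]
    {lg : F → ZMod ℓ} (hlg : IsLog ℓ lg) {Q : F[X]} (hQ : Q.Monic)
    (hQi : Irreducible Q) (c : ZMod ℓ) : ∃ f, ¬ Q ∣ f ∧ sy lg Q f = c := by
  have hfact : Fact (Irreducible Q) := ⟨hQi⟩
  have hfd : FiniteDimensional F (AdjoinRoot Q) := (AdjoinRoot.powerBasis hQ.ne_zero).finite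
  have hfin : Finite (AdjoinRoot Q) := Module.finite_of_finite F
  obtain ⟨x, hx0, hx⟩ := hlg.2.2 c
  obtain ⟨z, hz⟩ := FiniteField.norm_surjective F (AdjoinRoot Q) x
  obtain ⟨f, hf⟩ := AdjoinRoot.mk_surjective (g := Q) z
  refine ⟨f, ?_, ?_⟩
  · intro h
    rw [← AdjoinRoot.mk_eq_zero, hf] at h
    rw [h, Algebra.norm_zero] at hz
    exact hx0 hz.symm
  · rw [sy, nm, hf, hz, hx]

end

end Pool.Agent.Helper54.PT
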